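import Pool.Agent.H891.SM.Count
import Pool.Agent.H891.RF.Basis

/-! Coordinates for two subfields whose tangent spaces span. -/

set_option autoImplicit false
set_option linter.overlappingInstances false
set_option linter.unusedSectionVars false

open FF IntermediateField Algebra Pool.Agent.W619.PQ Pool.Agent.W619.PL Pool.Agent.W619.TW
  Pool.Agent.W603.LV Pool.Agent.W619.Y Pool.Agent.Y174 Pool.Agent.Y173.QA Pool.Agent.H891.KS
  Pool.Agent.H891.TY Pool.Agent.H891.RG Pool.Agent.H891.RF

namespace Pool.Agent.H891.SM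

section

variable {k Ω : Type} [Field k] [CharZero k] [Field Ω] [Algebra k Ω]

theorem indep_of_duals {ι : Type*} {z : ι → Ω}
    (h : ∀ i, ∃ D : Derivation k Ω Ω, D (z i) = 1 ∧ ∀ j, j ≠ i → D (z j) = 0) :
    AlgebraicIndependent k z := by
  refine algebraicIndependent_of_finite_type' (algebraMap k Ω).injective fun t _ _ i hi halg => ?_
  obtain ⟨D, hD, hD'⟩ := h i
  have h1 := der_alg_set D (S := z '' t) (by
    rintro _ ⟨j, hj, rfl⟩
    exact hD' j fun h => hi (h ▸ hj)) halg
  rw [hD] at h1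
  exact one_ne_zero h1

theorem mem_of_isAlg {B : Type} [Field B] [IsAlgClosed B] [Algebra B Ω] {a : Ω}
    (h : IsAlgebraic B a) : ∃ c : B, algebraMap B Ω c = a := by
  have h3 : Algebra.IsAlgebraic B (IntermediateField.adjoin B ({a} : Set Ω)) :=
    IntermediateField.isAlgebraic_adjoin (fun x hx => by
      rw [Set.mem_singleton_iff.1 hx]
      exact h.isIntegral)
  have h4 := IntermediateField.eq_bot_of_isAlgClosed_of_isAlgebraic
    (IntermediateField.adjoin B ({a} : Set Ω))
  have h5 : a ∈ IntermediateField.adjoin B ({a} : Set Ω) :=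
    IntermediateField.subset_adjoin _ _ rfl
  rw [h4] at h5
  exact IntermediateField.mem_bot.1 h5

/-- the field generated by an algebraically independent family -/
theorem adjoin_basis {m : ℕ} {z : Fin m → Ω} (hz : AlgebraicIndependent k z) :
    IsTranscendenceBasis k (fun i => (⟨z i, IntermediateField.subset_adjoin _ _ ⟨i, rfl⟩⟩ :
      IntermediateField.adjoin k (Set.range z))) := by
  let M := IntermediateField.adjoin k (Set.range z)
  let z' : Fin m → M := fun i => ⟨z i, IntermediateField.subset_adjoin _ _ ⟨i, rfl⟩⟩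
  have hi : AlgebraicIndependent k z' := by
    have h1 : AlgebraicIndependent k ((IsScalarTower.toAlgHom k M Ω) ∘ z') := hz
    exact h1.of_comp _
  have htop : IntermediateField.adjoin k (Set.range z') = ⊤ := by
    rw [_root_.eq_top_iff]
    intro w _
    have h1 : IntermediateField.adjoin k (Set.range z) ≤
        (IntermediateField.adjoin k (Set.range z')).map M.val := by
      rw [IntermediateField.adjoin_le_iff]
      rintro _ ⟨i, rfl⟩
      exact ⟨z' i, IntermediateField.subset_adjoin _ _ ⟨i, rfl⟩, rfl⟩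
    obtain ⟨w', hw', hww⟩ := h1 w.2
    have : w' = w := Subtype.ext hww
    rwa [this] at hw'
  rw [isTranscendenceBasis_iff_algebraicIndependent_isAlgebraic]
  refine ⟨hi, ⟨fun w => ?_⟩⟩
  have h1 : IsAlgebraic (IntermediateField.adjoin k (Set.range z')) w := by
    have h2 : w ∈ IntermediateField.adjoin k (Set.range z') := by
      rw [htop]
      exact IntermediateField.mem_top
    exact isAlgebraic_algebraMap (⟨w, h2⟩ : IntermediateField.adjoin k (Set.range z'))
  exact IntermediateField.isAlgebraic_adjoin_iff.1 h1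

theorem trdeg_nat {A B C : Type} [Field A] [Field B] [Field C] [Algebra A B] [Algebra B C]
    [Algebra A C] [IsScalarTower A B C] {n : ℕ} (h : Algebra.trdeg A C = n) :
    ∃ a b : ℕ, Algebra.trdeg A B = a ∧ Algebra.trdeg B C = b ∧ a + b = n := by
  have h1 := trdeg_add_eq A B (A := C)
  rw [h] at h1
  have h2 : Algebra.trdeg A B < Cardinal.aleph0 :=
    lt_of_le_of_lt (self_le_add_right _ _) (h1 ▸ Cardinal.natCast_lt_aleph0)
  have h3 : Algebra.trdeg B C < Cardinal.aleph0 :=
    lt_of_le_of_lt (self_le_add_left _ _) (h1 ▸ Cardinal.natCast_lt_aleph0)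
  obtain ⟨a, ha⟩ := Cardinal.lt_aleph0.1 h2
  obtain ⟨b, hb⟩ := Cardinal.lt_aleph0.1 h3
  refine ⟨a, b, ha, hb, ?_⟩
  rw [ha, hb] at h1
  exact_mod_cast h1

/-- **Submodularity of ranks.** -/
theorem rank2 [IsAlgClosed k] {n : ℕ} (hn : Algebra.trdeg k Ω = n) {B₁ B₂ B₁₂ : Type} [Field B₁]
    [Field B₂] [Field B₁₂] [IsAlgClosed B₁₂] [Algebra k B₁] [Algebra k B₂] [Algebra B₁ Ω]
    [Algebra B₂ Ω] [Algebra B₁₂ Ω] [IsScalarTower k B₁ Ω] [IsScalarTower k B₂ Ω]
    (hk : ∀ c : k, ∃ b : B₁₂, algebraMap B₁₂ Ω b = algebraMap k Ω c)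
    (h₁ : ∀ b : B₁, ∃ c : B₁₂, algebraMap B₁₂ Ω c = algebraMap B₁ Ω b)
    (h₂ : ∀ b : B₂, ∃ c : B₁₂, algebraMap B₁₂ Ω c = algebraMap B₂ Ω b)
    (hT : ∀ D : Derivation k Ω Ω, ∃ D₁ D₂ : Derivation k Ω Ω, D = D₁ + D₂ ∧
      (∀ b : B₁, D₁ (algebraMap B₁ Ω b) = 0) ∧ ∀ b : B₂, D₂ (algebraMap B₂ Ω b) = 0)
    {N P : ℕ} {w : Fin N → Ω} (hw : LinearIndependent k w) {s : Fin P → Ω}
    (hs : LinearIndependent B₁₂ s) :
    N * P ≤ Module.finrank B₁ (Submodule.span B₁ (Set.range w)) *
      Module.finrank B₂ (Submodule.span B₂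
        (Set.range fun p : Fin N × Fin P => w p.1 * s p.2)) := by
  classical
  have hΩ0 : CharZero Ω := charZero_of_injective_algebraMap (algebraMap k Ω).injective
  obtain ⟨a, -, ha, -, -⟩ := trdeg_nat (A := k) (B := B₁) (C := Ω) hn
  obtain ⟨b, -, hb, -, -⟩ := trdeg_nat (A := k) (B := B₂) (C := Ω) hn
  obtain ⟨t, ht⟩ := Pool.Agent.W636.PG.exists_basis k B₁ a ha
  obtain ⟨u, hu⟩ := Pool.Agent.W636.PG.exists_basis k B₂ b hb
  -- derivations
  have hker₁ : ∀ D : Derivation k Ω Ω, (∀ i, D (algebraMap B₁ Ω (t i)) = 0) →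
      ∀ z : B₁, D (algebraMap B₁ Ω z) = 0 := by
    intro D hD z
    refine der_alg_set D (S := Set.range fun i => algebraMap B₁ Ω (t i)) ?_ ?_
    · rintro _ ⟨i, rfl⟩
      exact hD i
    · have h5 : IsAlgebraic (Algebra.adjoin k (Set.range t)) z := ht.isAlgebraic.isAlgebraic z
      have hsub : Algebra.adjoin k (Set.range t) ≤ (Algebra.adjoin k
          (Set.range fun i => algebraMap B₁ Ω (t i))).comap (IsScalarTower.toAlgHom k B₁ Ω) := by
        rw [Algebra.adjoin_le_iff]
        rintro _ ⟨i, rfl⟩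
        exact Algebra.subset_adjoin ⟨i, rfl⟩
      let f : Algebra.adjoin k (Set.range t) →+* Algebra.adjoin k
          (Set.range fun i => algebraMap B₁ Ω (t i)) :=
        ((algebraMap B₁ Ω).comp
          (algebraMap (Algebra.adjoin k (Set.range t)) B₁)).codRestrict _ fun a => hsub a.2
      have h6 : IsAlgebraic (Algebra.adjoin k (Set.range t)) (algebraMap B₁ Ω z) := h5.algebraMap
      refine isAlg_of_hom f (fun a b hab => ?_) (fun a => rfl) h6
      have h4 : ((f a : Algebra.adjoin k (Set.range fun i => algebraMap B₁ Ω (t i))) :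
          Ω) = f b := congrArg Subtype.val hab
      exact Subtype.ext ((algebraMap B₁ Ω).injective h4)
  have hker₂ : ∀ D : Derivation k Ω Ω, (∀ i, D (algebraMap B₂ Ω (u i)) = 0) →
      ∀ z : B₂, D (algebraMap B₂ Ω z) = 0 := by
    intro D hD z
    refine der_alg_set D (S := Set.range fun i => algebraMap B₂ Ω (u i)) ?_ ?_
    · rintro _ ⟨i, rfl⟩
      exact hD i
    · have h5 : IsAlgebraic (Algebra.adjoin k (Set.range u)) z := hu.isAlgebraic.isAlgebraic z
      have hsub : Algebra.adjoin k (Set.range u) ≤ (Algebra.adjoin k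
          (Set.range fun i => algebraMap B₂ Ω (u i))).comap (IsScalarTower.toAlgHom k B₂ Ω) := by
        rw [Algebra.adjoin_le_iff]
        rintro _ ⟨i, rfl⟩
        exact Algebra.subset_adjoin ⟨i, rfl⟩
      let f : Algebra.adjoin k (Set.range u) →+* Algebra.adjoin k
          (Set.range fun i => algebraMap B₂ Ω (u i)) :=
        ((algebraMap B₂ Ω).comp
          (algebraMap (Algebra.adjoin k (Set.range u)) B₂)).codRestrict _ fun a => hsub a.2
      have h6 : IsAlgebraic (Algebra.adjoin k (Set.range u)) (algebraMap B₂ Ω z) := h5.algebraMap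
      refine isAlg_of_hom f (fun a b hab => ?_) (fun a => rfl) h6
      have h4 : ((f a : Algebra.adjoin k (Set.range fun i => algebraMap B₂ Ω (u i))) :
          Ω) = f b := congrArg Subtype.val hab
      exact Subtype.ext ((algebraMap B₂ Ω).injective h4)
  have htΩ : AlgebraicIndependent k fun i => algebraMap B₁ Ω (t i) :=
    ht.1.map' (f := IsScalarTower.toAlgHom k B₁ Ω) (algebraMap B₁ Ω).injective
  have huΩ : AlgebraicIndependent k fun i => algebraMap B₂ Ω (u i) :=
    hu.1.map' (f := IsScalarTower.toAlgHom k B₂ Ω) (algebraMap B₂ Ω).injective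
  have hdual : ∀ {m : ℕ} {z : Fin m → Ω}, AlgebraicIndependent k z → ∀ i,
      ∃ D : Derivation k Ω Ω, D (z i) = 1 ∧ ∀ j, j ≠ i → D (z j) = 0 := by
    intro m z hz i
    obtain ⟨T, hT, hTb⟩ := exists_isTranscendenceBasis_superset
      (s := Set.range z) hz.coe_range
    obtain ⟨G, hG⟩ := Pool.Agent.Y173.QA.exists_duals (k := k) (L := Ω) hTb
    refine ⟨G ⟨z i, hT ⟨i, rfl⟩⟩, ?_, fun j hj => ?_⟩
    · have h5 := hG ⟨z i, hT ⟨i, rfl⟩⟩ ⟨z i, hT ⟨i, rfl⟩⟩
      rwa [if_pos rfl] at h5
    · have h5 := hG ⟨z i, hT ⟨i, rfl⟩⟩ ⟨z j, hT ⟨j, rfl⟩⟩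
      rwa [if_neg] at h5
      intro h6
      exact hj (hz.injective (congrArg Subtype.val h6)).symm
  let z₀ : Fin (a + b) → Ω :=
    Fin.append (fun i => algebraMap B₁ Ω (t i)) (fun i => algebraMap B₂ Ω (u i))
  have hz₀t : ∀ i, z₀ (Fin.castAdd b i) = algebraMap B₁ Ω (t i) := fun i => Fin.append_left _ _ i
  have hz₀u : ∀ i, z₀ (Fin.natAdd a i) = algebraMap B₂ Ω (u i) := fun i => Fin.append_right _ _ i
  have hz₀ : AlgebraicIndependent k z₀ := by
    refine indep_of_duals fun i => ?_
    refine Fin.addCases (fun i => ?_) (fun i => ?_) i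
    · obtain ⟨D, hD, hD'⟩ := hdual htΩ i
      obtain ⟨D₁, D₂, rfl, hD₁, hD₂⟩ := hT D
      refine ⟨D₂, ?_, fun j => ?_⟩
      · rw [hz₀t]
        rw [Derivation.add_apply, hD₁, zero_add] at hD
        exact hD
      · refine Fin.addCases (fun j hj => ?_) (fun j hj => ?_) j
        · rw [hz₀t]
          have h5 := hD' j (fun h => hj (by rw [h]))
          rw [Derivation.add_apply, hD₁, zero_add] at h5
          exact h5
        · rw [hz₀u]
          exact hD₂ _
    · obtain ⟨D, hD, hD'⟩ := hdual huΩ i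
      obtain ⟨D₁, D₂, rfl, hD₁, hD₂⟩ := hT D
      refine ⟨D₁, ?_, fun j => ?_⟩
      · rw [hz₀u]
        rw [Derivation.add_apply, hD₂, add_zero] at hD
        exact hD
      · refine Fin.addCases (fun j hj => ?_) (fun j hj => ?_) j
        · rw [hz₀t]
          exact hD₁ _
        · rw [hz₀u]
          have h5 := hD' j (fun h => hj (by rw [h]))
          rw [Derivation.add_apply, hD₂, add_zero] at h5
          exact h5
  -- the remaining coordinates
  let M : IntermediateField k Ω := IntermediateField.adjoin k (Set.range z₀)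
  have hMb := adjoin_basis hz₀
  have hM0 : CharZero M := charZero_of_injective_algebraMap (algebraMap k M).injective
  obtain ⟨-, c, -, hc, -⟩ := trdeg_nat (A := k) (B := M) (C := Ω) hn
  obtain ⟨x, hx⟩ := Pool.Agent.W636.PG.exists_basis M Ω c hc
  have hzb := basis_append hMb hx
  let z : Fin ((a + b) + c) → Ω := Fin.append z₀ x
  have hz : IsTranscendenceBasis k z := hzb
  have hzz₀ : ∀ i, z (Fin.castAdd c i) = z₀ i := fun i => Fin.append_left _ _ i
  obtain ⟨E, hE⟩ := Pool.Agent.W636.PG.exists_duals k Ω _ z hz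
  let I₁ : Finset (Fin ((a + b) + c)) := Finset.univ.filter fun i => a ≤ i.val
  let I₂ : Finset (Fin ((a + b) + c)) :=
    Finset.univ.filter fun i => i.val < a ∨ a + b ≤ i.val
  let X : Finset (Fin ((a + b) + c)) := Finset.univ.filter fun i => a + b ≤ i.val
  have hI₁ : ∀ i, i ∈ I₁ ↔ a ≤ i.val := fun i => by simp [I₁]
  have hI₂ : ∀ i, i ∈ I₂ ↔ i.val < a ∨ a + b ≤ i.val := fun i => by simp [I₂]
  have hXm : ∀ i, i ∈ X ↔ a + b ≤ i.val := fun i => by simp [X]
  refine count2 (E := E) (B₀ := k) (B₁ := B₁) (B₂ := B₂) (B₁₂ := B₁₂) (I₁ := I₁) (I₂ := I₂)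
    (X := X) (ders_comm hz hE) (fun i hi => ?_) (fun i hi => ?_) (fun i hi => ?_)
    (fun i hi j hj => ?_) (fun y hy => ders_const hz hE hy) (fun y i hi => ?_)
    (fun y i hi => ?_) (fun y hy => ?_) hw hs
  · rw [hI₁] at hi
    rw [hI₂]
    omega
  · rw [hXm] at hi
    rw [hI₁]
    omega
  · rw [hXm] at hi
    rw [hI₂]
    omega
  · rw [hXm] at hi hj
    exact Fin.lt_def.2 (by omega)
  · rw [hI₁] at hi
    refine hker₁ _ (fun j => ?_) y
    have h5 := hE i (Fin.castAdd c (Fin.castAdd b j))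
    rw [hzz₀, hz₀t, if_neg] at h5
    · exact h5
    · intro h6
      have h7 := congrArg Fin.val h6
      simp only [Fin.val_castAdd] at h7
      omega
  · rw [hI₂] at hi
    refine hker₂ _ (fun j => ?_) y
    have h5 := hE i (Fin.castAdd c (Fin.natAdd a j))
    rw [hzz₀, hz₀u, if_neg] at h5
    · exact h5
    · intro h6
      have h7 := congrArg Fin.val h6
      simp only [Fin.val_castAdd, Fin.val_natAdd] at h7
      omega
  · -- constants
    have hMalg : IsAlgebraic M y := by
      by_contra hcon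
      obtain ⟨D, hD, hDy⟩ := exists_der M hcon
      have h5 : D y = (∑ i, D (z i) • E i) y :=
        congrArg (fun G : Derivation k Ω Ω => G y) (der_expand hz hE D)
      rw [hDy, Pool.Agent.W721.PG.EFF2.der_sum, Finset.sum_eq_zero] at h5
      · exact one_ne_zero h5
      · intro i _
        refine Fin.addCases (fun i => ?_) (fun i => ?_) i
        · rw [hzz₀, hD _ (IntermediateField.subset_adjoin _ _ ⟨i, rfl⟩), zero_mul]
        · rw [hy _ ((hXm _).2 (by simp)), mul_zero]
    -- the subfield of the elements of `B₁₂`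
    have hle : ∀ m ∈ M, m ∈ (algebraMap B₁₂ Ω).fieldRange := by
      let R : IntermediateField k Ω :=
        { (algebraMap B₁₂ Ω).fieldRange with
          algebraMap_mem' := fun c => by
            obtain ⟨b, hb⟩ := hk c
            exact ⟨b, hb⟩ }
      have h5 : M ≤ R := by
        rw [IntermediateField.adjoin_le_iff]
        rintro _ ⟨i, rfl⟩
        refine Fin.addCases (fun i => ?_) (fun i => ?_) i
        · rw [hz₀t]
          obtain ⟨c, hc⟩ := h₁ (t i)
          exact ⟨c, hc⟩
        · rw [hz₀u]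
          obtain ⟨c, hc⟩ := h₂ (u i)
          exact ⟨c, hc⟩
      exact fun m hm => h5 hm
    choose g hg using fun m : M => RingHom.mem_fieldRange.1 (hle m m.2)
    let gh : M →+* B₁₂ :=
      { toFun := g
        map_one' := (algebraMap B₁₂ Ω).injective (by rw [hg, map_one]; rfl)
        map_mul' := fun x y => (algebraMap B₁₂ Ω).injective (by rw [map_mul, hg, hg, hg]; rfl)
        map_zero' := (algebraMap B₁₂ Ω).injective (by rw [hg, map_zero]; rfl)
        map_add' := fun x y => (algebraMap B₁₂ Ω).injective (by rw [map_add, hg, hg, hg]; rfl) }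
    exact mem_of_isAlg (isAlg_of_hom gh gh.injective (fun m => hg m) hMalg)

end

end Pool.Agent.H891.SM
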