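import Pool.Agent.H891.SM.Rank
import Pool.Agent.H891.RH.Ratio

/-! Submodularity of the restricted numerical dimension. -/

set_option autoImplicit false
set_option linter.overlappingInstances false
set_option linter.unusedSectionVars false

open FF IntermediateField Algebra Pool.Agent.W619.PQ Pool.Agent.W619.PL Pool.Agent.W619.TW
  Pool.Agent.W603.LV Pool.Agent.W619.Y Pool.Agent.Y174 Pool.Agent.Y173.QA Pool.Agent.H891.KS
  Pool.Agent.H891.TY Pool.Agent.H891.RH

namespace Pool.Agent.H891.SM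

section

variable {k : Type} {K : Type} [Field k] [Field K] [Algebra k K] [CharZero k]

theorem RestrIndep.mono {B : IntermediateField k (AlgebraicClosure K)} {n : ℕ}
    {δ : Place k K → ℝ} {S : Finset K} {m N N' : ℕ} (h : RestrIndep B n δ S m N) (hN : N' ≤ N) :
    RestrIndep B n δ S m N' := by
  obtain ⟨ω, hω, hli⟩ := h
  exact ⟨fun i => ω (Fin.castLE hN i), fun i => hω _, hli.comp _ (Fin.castLE_injective hN)⟩

open scoped Classical in
/-- sections with independent restrictions give independent sections on the member -/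
theorem restr_mem (hess : Algebra.EssFiniteType k K) {n f : ℕ} (hn : Algebra.trdeg k K = n)
    {B : IntermediateField k (AlgebraicClosure K)} (hB : IsFamily B n f) {δ : Place k K → ℝ}
    {δ' : MemDiv B} (hδ : IsRestrMem B δ δ') {S : Finset K} {m N : ℕ}
    (h : RestrIndep B n δ S m N) : MemIndep B f δ' S m 1 N := by
  obtain ⟨hB, hf1, d, hd, hf⟩ := hB
  obtain ⟨y, hy⟩ := Pool.Agent.W636.PG.exists_basis k K n hn
  obtain ⟨E, hE⟩ := Pool.Agent.W636.PG.exists_duals k K n _ hy
  obtain ⟨ω, hω, hli⟩ := h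
  have h1 := coef_indep hy hE (fun l => (hω l).1) hli
  have h2 := mem_rank hess hn hy hE B hB hd hf hf1 hδ S ω hω
  rw [finrank_span_eq_card h1, Fintype.card_fin] at h2
  exact h2

theorem num_restr (hess : Algebra.EssFiniteType k K) {n f : ℕ} (hn : Algebra.trdeg k K = n)
    {B : IntermediateField k (AlgebraicClosure K)} (hB : IsFamily B n f) {δ : Place k K → ℝ}
    {δ' : MemDiv B} (hδ : IsRestrMem B δ δ') {h : ℕ} (hν : MemNum B f δ' h) :
    RestrNumLe B n δ h := by
  classical
  intro S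
  obtain ⟨C, hC⟩ := hν (S.image (memHom B))
  exact ⟨C, fun m N hm hN => hC m N hm (restr_mem hess hn hB hδ hN)⟩

theorem isAlgClosed_bot [IsAlgClosed k] :
    IsAlgClosed (⊥ : IntermediateField k (AlgebraicClosure K)) :=
  IsAlgClosed.of_ringEquiv k _ (IntermediateField.botEquiv k (AlgebraicClosure K)).symm.toRingEquiv

theorem tan_bot : Tan (⊥ : IntermediateField k (AlgebraicClosure K)) = ⊤ := by
  rw [_root_.eq_top_iff]
  intro D _ b hb
  obtain ⟨c, rfl⟩ := IntermediateField.mem_bot.1 hb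
  exact D.map_algebraMap c

/-- independent sections on the variety -/
theorem bot_indep {n : ℕ} (hn : Algebra.trdeg k K = n) {δ : Place k K → ℝ} {S : Finset K}
    {m N : ℕ} (h : HasIndep k K n N (PairSec k K n δ S m 1)) :
    RestrIndep (⊥ : IntermediateField k (AlgebraicClosure K)) n δ S m N := by
  obtain ⟨y, hy⟩ := Pool.Agent.W636.PG.exists_basis k K n hn
  obtain ⟨E, hE⟩ := Pool.Agent.W636.PG.exists_duals k K n _ hy
  obtain ⟨ω, hli, hω⟩ := h
  refine ⟨ω, hω, restr_indep (E := E) ?_⟩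
  have hlin := lin_frame (fun X => ⟨_, der_expand hy hE X⟩) hli (fun l => (hω l).1)
    (one_ne_zero (α := K))
  simp only [one_mul] at hlin
  have hlinΩ : LinearIndependent k fun l => algebraMap K (AlgebraicClosure K) (ω l E) :=
    hlin.map' (IsScalarTower.toAlgHom k K (AlgebraicClosure K)).toLinearMap
      (LinearMap.ker_eq_bot.2 (algebraMap K (AlgebraicClosure K)).injective)
  rw [Fintype.linearIndependent_iff] at hlinΩ ⊢
  intro a ha
  choose c hc using fun l => IntermediateField.mem_bot.1 (a l).2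
  have h1 : ∀ l, c l = 0 := by
    apply hlinΩ
    rw [← ha]
    refine Finset.sum_congr rfl fun l _ => ?_
    rw [Algebra.smul_def, hc]
    rfl
  intro l
  apply Subtype.ext
  rw [← hc, h1, map_zero]
  rfl

theorem restr_num {n : ℕ} (hn : Algebra.trdeg k K = n) {δ : Place k K → ℝ} {h : ℕ}
    (hν : RestrNumLe (⊥ : IntermediateField k (AlgebraicClosure K)) n δ h) :
    PairNum k K n δ h := by
  intro S
  obtain ⟨C, hC⟩ := hν S
  exact ⟨C, fun m N hm hN => hC m N hm (bot_indep hn hN)⟩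

/-- sections without poles along the divisor `A = 0` -/
theorem sec_shift {n : ℕ} {δ : Place k K → ℝ} {m : ℕ} {ω : (Fin n → Derivation k K K) → K}
    (hω : PairSec k K n δ {1} m 0 ω) : PairSec k K n δ {1} m 1 ω := by
  refine ⟨hω.1, fun v hv X hX => ?_⟩
  rcases hω.2 v hv X hX with h | ⟨s, hs, hs0, h⟩
  · exact Or.inl h
  · right
    refine ⟨s, hs, hs0, ?_⟩
    rw [Finset.mem_singleton.1 hs, v.ord_one] at h ⊢
    simpa using h

/-- the image of the member under a pluricanonical map and the ranks of the restrictions -/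
theorem image_growth {n c : ℕ} {B : IntermediateField k (AlgebraicClosure K)}
    {δ : Place k K → ℝ} (h : ImageDimGe B n δ c) : RestrNumGe B n δ c := by
  classical
  obtain ⟨m, hm, ω, hω, E, hE0, hE⟩ := h
  refine ⟨{1}, (c + 1) * m, Nat.mul_pos (Nat.succ_pos c) hm, fun j _ => ?_⟩
  let e := (finFunctionFinEquiv (m := j) (n := c)).symm
  let mon : (Fin c → Fin j) → (Fin n → Derivation k K K) → K := fun a D =>
    (∏ i : Fin c, ω i.succ D ^ (a i : ℕ)) * ω 0 D ^ ((c + 1) * j - ∑ i, (a i : ℕ))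
  have hle : ∀ a : Fin c → Fin j, ∑ i, (a i : ℕ) ≤ (c + 1) * j := by
    intro a
    calc ∑ i, (a i : ℕ) ≤ ∑ _i : Fin c, j := Finset.sum_le_sum fun i _ => (a i).2.le
      _ = c * j := by rw [Finset.sum_const, Finset.card_univ, Fintype.card_fin, smul_eq_mul]
      _ ≤ (c + 1) * j := Nat.mul_le_mul_right _ (Nat.le_succ c)
  have hmon : ∀ a, PairSec k K n δ {1} (j * ((c + 1) * m)) 0 (mon a) := by
    intro a
    have h1 : ∀ s : Finset (Fin c), PairSec k K n δ {1} ((∑ i ∈ s, (a i : ℕ)) * m) 0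
        fun D => ∏ i ∈ s, ω i.succ D ^ (a i : ℕ) := by
      intro s
      induction s using Finset.induction_on with
      | empty => simpa using sec_one (k := k) (M := K) (n := n) (δ := δ)
      | insert i s hi ih =>
        have h2 := RH.sec_mul (RH.sec_pow' (hω i.succ) (a i : ℕ)) ih
        rw [Finset.sum_insert hi, Nat.add_mul]
        have h3 : (fun D => ∏ i ∈ insert i s, ω i.succ D ^ (a i : ℕ)) =
            fun D => ω i.succ D ^ (a i : ℕ) * ∏ i ∈ s, ω i.succ D ^ (a i : ℕ) :=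
          funext fun D => Finset.prod_insert hi
        rw [h3]
        exact h2
    have h2 := RH.sec_mul (h1 Finset.univ)
      (RH.sec_pow' (hω 0) ((c + 1) * j - ∑ i, (a i : ℕ)))
    have h3 : j * ((c + 1) * m) = (∑ i, (a i : ℕ)) * m +
        ((c + 1) * j - ∑ i, (a i : ℕ)) * m := by
      rw [← Nat.add_mul, Nat.add_sub_cancel' (hle a)]
      ring
    rw [h3]
    exact h2
  refine ⟨fun i => mon (e i), fun i => sec_shift (hmon _), restr_indep (E := E) ?_⟩
  have hE' : AlgebraicIndependent B (fun l : Fin c =>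
      algebraMap K (AlgebraicClosure K) (ω l.succ E / ω 0 E)) :=
    AlgebraicIndependent.map' (f := (Mem B).val)
      (x := fun l : Fin c => (memHom B (ω l.succ E / ω 0 E) : Mem B)) hE (Mem B).val.injective
  have hlin : LinearIndependent B fun a => algebraMap K (AlgebraicClosure K) (mon a E) := by
    have h1 := (lmon_indep hE').comp (fun a : Fin c → Fin j => fun i => ((a i : ℕ) : ℤ)) (by
      intro a a' haa
      funext i
      have := congrFun haa i
      simp only [Nat.cast_inj] at this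
      exact Fin.ext this)
    rw [Fintype.linearIndependent_iff] at h1 ⊢
    intro g hg
    apply h1
    have h4 : algebraMap K (AlgebraicClosure K) (ω 0 E) ≠ 0 := by
      rw [Ne, map_eq_zero_iff _ (algebraMap K (AlgebraicClosure K)).injective]
      exact hE0 0
    have h3 : ∀ a : Fin c → Fin j, g a • algebraMap K (AlgebraicClosure K) (mon a E) =
        (g a • (lmon (fun l : Fin c => algebraMap K (AlgebraicClosure K)
          (ω l.succ E / ω 0 E)) (fun i => ((a i : ℕ) : ℤ)))) *
          algebraMap K (AlgebraicClosure K) (ω 0 E) ^ ((c + 1) * j) := by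
      intro a
      rw [smul_mul_assoc]
      congr 1
      simp only [mon, lmon, zpow_natCast, map_mul, map_prod, map_pow, map_div₀, div_pow,
        Finset.prod_div_distrib]
      rw [Finset.prod_pow_eq_pow_sum, div_mul_eq_mul_div, eq_div_iff (pow_ne_zero _ h4),
        mul_assoc, ← pow_add, Nat.sub_add_cancel (hle a)]
    rw [Finset.sum_congr rfl fun a _ => h3 a, ← Finset.sum_mul] at hg
    exact (mul_eq_zero.1 hg).resolve_right (pow_ne_zero _ h4)
  exact hlin.comp e e.injective

/-- **Submodularity of the restricted numerical dimension.** -/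
theorem submod_num {n : ℕ} (hn : Algebra.trdeg k K = n)
    {B₀ B₁ B₂ B₁₂ : IntermediateField k (AlgebraicClosure K)} (h0 : IsAlgClosed B₀)
    (h12 : IsAlgClosed B₁₂) (h01 : B₀ ≤ B₁) (h02 : B₀ ≤ B₂) (h1 : B₁ ≤ B₁₂) (h2 : B₂ ≤ B₁₂)
    (hT : Tan B₀ ≤ Tan B₁ ⊔ Tan B₂) {δ : Place k K → ℝ} {c ν₁ ν₂ h : ℕ}
    (hc : RestrNumGe B₁₂ n δ c) (hν₁ : RestrNumLe B₁ n δ ν₁) (hν₂ : RestrNumLe B₂ n δ ν₂)
    (hh : ν₁ + ν₂ ≤ h + c) : RestrNumLe B₀ n δ h := by
  classical
  intro S
  obtain ⟨S', M, hM, hgr⟩ := hc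
  obtain ⟨C₁, hC₁⟩ := hν₁ S
  obtain ⟨C₂, hC₂⟩ := hν₂ (Finset.image₂ (· * ·) S S')
  refine ⟨C₁ * (C₂ * (1 + M) ^ ν₂), fun m N hm hN => ?_⟩
  obtain ⟨M₁, M₂, hM₁, hM₂, key'⟩ := submod_rank hn h0 h12 h01 h02 h1 h2 hT hN (hgr m hm)
  have key := key'.trans (Nat.mul_le_mul (hC₁ m M₁ hm hM₁) (hC₂ (m + m * M) M₂ (by omega) hM₂))
  have h3 : m + m * M = m * (1 + M) := by ring
  rw [h3, mul_pow] at key
  have h4 : C₁ * m ^ ν₁ * (C₂ * (m ^ ν₂ * (1 + M) ^ ν₂)) =
      C₁ * (C₂ * (1 + M) ^ ν₂) * m ^ (ν₁ + ν₂) := by ring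
  rw [h4] at key
  have h5 : m ^ (ν₁ + ν₂) ≤ m ^ (h + c) := Nat.pow_le_pow_right hm hh
  have h6 : N * m ^ c ≤ (C₁ * (C₂ * (1 + M) ^ ν₂) * m ^ h) * m ^ c := by
    rw [mul_assoc, ← pow_add]
    exact key.trans (Nat.mul_le_mul_left _ h5)
  exact Nat.le_of_mul_le_mul_right h6 (pow_pos (by omega) c)

end

end Pool.Agent.H891.SM
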