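import Pool.Agent.H891.SM.Tay
import Pool.Agent.H891.RG.Half

/-! Submodularity of ranks. -/

set_option autoImplicit false
set_option linter.unusedSectionVars false

open Pool.Agent.H891.TY

namespace Pool.Agent.H891.SM

section

variable {Ω : Type*} [Field Ω] {n : ℕ}

/-- The value of a power series. -/
noncomputable def lv (y : MvPowerSeries (Fin n) Ω) : (WithTop (Lex (Fin n →₀ ℕ)))ᵒᵈ :=
  OrderDual.toDual (MvPowerSeries.lexOrder y)

open scoped Classical in
/-- The lowest exponent of a power series. -/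
noncomputable def xp (y : MvPowerSeries (Fin n) Ω) : Fin n →₀ ℕ :=
  if h : y = 0 then 0 else Classical.choose (MvPowerSeries.exists_finsupp_eq_lexOrder_of_ne_zero h)

theorem xp_spec {y : MvPowerSeries (Fin n) Ω} (hy : y ≠ 0) :
    MvPowerSeries.lexOrder y = toLex (xp y) := by
  unfold xp
  rw [dif_neg hy]
  exact Classical.choose_spec (MvPowerSeries.exists_finsupp_eq_lexOrder_of_ne_zero hy)

theorem coeff_xp {y : MvPowerSeries (Fin n) Ω} (hy : y ≠ 0) : MvPowerSeries.coeff (xp y) y ≠ 0 :=
  MvPowerSeries.coeff_ne_zero_of_lexOrder (xp_spec hy).symm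

theorem xp_of {y : MvPowerSeries (Fin n) Ω} {p : Fin n →₀ ℕ}
    (h : MvPowerSeries.lexOrder y = toLex p) : xp y = p := by
  have hy : y ≠ 0 := by
    rintro rfl
    rw [MvPowerSeries.lexOrder_zero] at h
    exact WithTop.coe_ne_top h.symm
  have h1 := (xp_spec hy).symm.trans h
  exact toLex.injective (WithTop.coe_injective h1)

theorem xp_mul {a y : MvPowerSeries (Fin n) Ω} (ha : a ≠ 0) (hy : y ≠ 0) :
    xp (a * y) = xp a + xp y := by
  apply xp_of
  rw [MvPowerSeries.lexOrder_mul, xp_spec ha, xp_spec hy]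
  rfl

theorem leaf {y y' : MvPowerSeries (Fin n) Ω} (hy' : y' ≠ 0) (h : lv y = lv y') :
    ∃ c : Ω, lv (y - c • y') < lv y := by
  have h' : MvPowerSeries.lexOrder y = MvPowerSeries.lexOrder y' := h
  have hy : y ≠ 0 := by
    rintro rfl
    rw [MvPowerSeries.lexOrder_zero, xp_spec hy'] at h'
    exact WithTop.coe_ne_top h'.symm
  have hp := xp_spec hy'
  have h1 := coeff_xp hy'
  refine ⟨MvPowerSeries.coeff (xp y') y / MvPowerSeries.coeff (xp y') y', ?_⟩
  show MvPowerSeries.lexOrder y < MvPowerSeries.lexOrder (y - _ • y')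
  refine lt_of_le_of_ne ?_ ?_
  · rw [MvPowerSeries.le_lexOrder_iff]
    intro d hd
    have hd' : toLex d < MvPowerSeries.lexOrder y' := h' ▸ hd
    have e1 : MvPowerSeries.coeff d y = 0 := MvPowerSeries.coeff_eq_zero_of_lt_lexOrder hd
    have e2 : MvPowerSeries.coeff d y' = 0 := MvPowerSeries.coeff_eq_zero_of_lt_lexOrder hd'
    rw [map_sub, map_smul, e1, e2, smul_zero, sub_zero]
  · intro heq
    have h2 : toLex (xp y') = MvPowerSeries.lexOrder (y -
        (MvPowerSeries.coeff (xp y') y / MvPowerSeries.coeff (xp y') y') • y') := by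
      rw [← heq, h', hp]
    apply MvPowerSeries.coeff_ne_zero_of_lexOrder h2
    rw [map_sub, map_smul, smul_eq_mul, div_mul_cancel₀ _ h1, sub_self]

theorem two_eq {ι : Type*} {s : Finset ι} (hs : s.Nonempty)
    {y : ι → MvPowerSeries (Fin n) Ω} (hy : ∀ i ∈ s, y i ≠ 0)
    (hsum : ∑ i ∈ s, y i = 0) : ∃ i ∈ s, ∃ i' ∈ s, i ≠ i' ∧ xp (y i) = xp (y i') := by
  classical
  by_contra hcon
  push Not at hcon
  obtain ⟨i₀, hi₀, hmin⟩ := s.exists_min_image (fun i => MvPowerSeries.lexOrder (y i)) hs
  have h1 := congrArg (MvPowerSeries.coeff (xp (y i₀))) hsum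
  rw [map_sum, map_zero, Finset.sum_eq_single i₀] at h1
  · exact coeff_xp (hy _ hi₀) h1
  · intro i hi hne
    apply MvPowerSeries.coeff_eq_zero_of_lt_lexOrder
    rw [← xp_spec (hy _ hi₀)]
    refine lt_of_le_of_ne (hmin i hi) fun h => ?_
    rw [xp_spec (hy _ hi₀), xp_spec (hy _ hi)] at h
    exact hcon i hi i₀ hi₀ hne (toLex.injective (WithTop.coe_injective h)).symm
  · intro h
    exact (h hi₀).elim

/-- The restriction of power series to the variables in `X`. -/
noncomputable def res (X : Finset (Fin n)) :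
    MvPowerSeries (Fin n) Ω →ₗ[Ω] MvPowerSeries (Fin n) Ω where
  toFun y := fun e => if ∀ i, i ∉ X → e i = 0 then MvPowerSeries.coeff e y else 0
  map_add' y y' := by
    ext e
    change (if ∀ i, i ∉ X → e i = 0 then MvPowerSeries.coeff e (y + y') else 0) =
      (if ∀ i, i ∉ X → e i = 0 then MvPowerSeries.coeff e y else 0) +
      (if ∀ i, i ∉ X → e i = 0 then MvPowerSeries.coeff e y' else 0)
    split_ifs
    · exact map_add _ _ _
    · exact (add_zero _).symm
  map_smul' c y := by
    ext e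
    change (if ∀ i, i ∉ X → e i = 0 then MvPowerSeries.coeff e (c • y) else 0) =
      c * (if ∀ i, i ∉ X → e i = 0 then MvPowerSeries.coeff e y else 0)
    split_ifs
    · exact map_smul _ _ _
    · exact (mul_zero _).symm

theorem coeff_res {X : Finset (Fin n)} {e : Fin n →₀ ℕ} (he : ∀ i, i ∉ X → e i = 0)
    (y : MvPowerSeries (Fin n) Ω) :
    MvPowerSeries.coeff e (res X y) = MvPowerSeries.coeff e y := if_pos he

theorem coeff_res' {X : Finset (Fin n)} {e : Fin n →₀ ℕ} (he : ¬ ∀ i, i ∉ X → e i = 0)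
    (y : MvPowerSeries (Fin n) Ω) :
    MvPowerSeries.coeff e (res X y) = 0 := if_neg he

theorem xp_res {X : Finset (Fin n)} {y : MvPowerSeries (Fin n) Ω} (h : res X y ≠ 0) {i : Fin n}
    (hi : i ∉ X) : xp (res X y) i = 0 := by
  by_contra hcon
  exact coeff_xp h (coeff_res' (fun h' => hcon (h' i hi)) y)

theorem lexOrder_res {X : Finset (Fin n)} (hX : ∀ i ∈ X, ∀ j, j ∉ X → j < i)
    {y : MvPowerSeries (Fin n) Ω} (h : res X y ≠ 0) :
    MvPowerSeries.lexOrder y = MvPowerSeries.lexOrder (res X y) := by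
  have hp := xp_spec h
  have hpX : ∀ i, i ∉ X → xp (res X y) i = 0 := fun i hi => xp_res h hi
  rw [hp]
  apply le_antisymm
  · apply MvPowerSeries.lexOrder_le_of_coeff_ne_zero
    rw [← coeff_res hpX]
    exact coeff_xp h
  · rw [MvPowerSeries.le_lexOrder_iff]
    intro d hd
    have hd' : toLex d < toLex (xp (res X y)) := WithTop.coe_lt_coe.1 hd
    obtain ⟨j, hj, hlt⟩ := hd'
    have hjX : j ∈ X := by
      by_contra hj'
      have h1 : d j < xp (res X y) j := hlt
      rw [hpX j hj'] at h1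
      exact absurd h1 (Nat.not_lt_zero _)
    have hdX : ∀ i, i ∉ X → d i = 0 := by
      intro i hi
      have h1 : d i = xp (res X y) i := hj i (hX j hjX i hi)
      rw [h1, hpX i hi]
    rw [← coeff_res hdX]
    apply MvPowerSeries.coeff_eq_zero_of_lt_lexOrder
    rw [hp]
    exact hd

/-- The power series which do not involve the variables in `I`. -/
noncomputable def con (I : Finset (Fin n)) : Subring (MvPowerSeries (Fin n) Ω) where
  carrier := {y | ∀ e : Fin n →₀ ℕ, (∃ i ∈ I, e i ≠ 0) → MvPowerSeries.coeff e y = 0}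
  mul_mem' := by
    classical
    rintro y y' hy hy' e ⟨i, hi, he⟩
    rw [MvPowerSeries.coeff_mul]
    refine Finset.sum_eq_zero fun p hp => ?_
    have hp' : p.1 + p.2 = e := Finset.HasAntidiagonal.mem_antidiagonal.1 hp
    by_cases h1 : p.1 i = 0
    · rw [hy' p.2 ⟨i, hi, fun h2 => he (by rw [← hp', Finsupp.add_apply, h1, h2])⟩, mul_zero]
    · rw [hy p.1 ⟨i, hi, h1⟩, zero_mul]
  one_mem' := by
    classical
    rintro e ⟨i, -, he⟩
    rw [MvPowerSeries.coeff_one, if_neg]
    rintro rfl
    exact he rfl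
  add_mem' := by
    intro y y' hy hy' e he
    rw [map_add, hy e he, hy' e he, add_zero]
  zero_mem' := fun e _ => map_zero _
  neg_mem' := by
    intro y hy e he
    rw [map_neg, hy e he, neg_zero]

theorem xp_con {I : Finset (Fin n)} {y : MvPowerSeries (Fin n) Ω} (hy : y ∈ con I) (hy0 : y ≠ 0)
    {i : Fin n} (hi : i ∈ I) : xp y i = 0 := by
  by_contra hcon
  exact coeff_xp hy0 (hy _ ⟨i, hi, hcon⟩)

theorem const_mem (I : Finset (Fin n)) (a : Ω) : MvPowerSeries.C a ∈ con (Ω := Ω) I := by
  classical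
  rintro e ⟨i, -, he⟩
  rw [MvPowerSeries.coeff_C, if_neg]
  rintro rfl
  exact he rfl

end

section

variable {k Ω : Type*} [Field k] [Field Ω] [CharZero Ω] [Algebra k Ω] {n : ℕ}
  {E : Fin n → Derivation k Ω Ω}

/-- Elements whose lowest exponents have distinct projections to the variables in `I`. -/
theorem proj_bound (hcomm : ∀ l m a, E l (E m a) = E m (E l a)) {I : Finset (Fin n)} {B : Type*}
    [Field B] [Algebra B Ω] (hB : ∀ b : B, ∀ i ∈ I, E i (algebraMap B Ω b) = 0) {ι : Type*}
    [Finite ι] (u : ι → Ω) {β : Type*} [Fintype β] (y : β → MvPowerSeries (Fin n) Ω)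
    (hyV : ∀ b, y b ∈ Submodule.span Ω (Set.range fun i => tay E (u i))) (hy0 : ∀ b, y b ≠ 0)
    (hinj : ∀ b b', (∀ i ∈ I, xp (y b) i = xp (y b') i) → b = b') :
    Fintype.card β ≤ Module.finrank B (Submodule.span B (Set.range u)) := by
  classical
  have hfd : FiniteDimensional B (Submodule.span B (Set.range u)) :=
    FiniteDimensional.span_of_finite B (Set.finite_range _)
  let f := Module.finBasis B (Submodule.span B (Set.range u))
  have hlin : LinearIndependent (con (Ω := Ω) I) y := by
    rw [linearIndependent_iff']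
    intro s a ha b hb
    by_contra hab
    let s' := s.filter fun b => a b ≠ 0
    have hs' : s'.Nonempty := ⟨b, Finset.mem_filter.2 ⟨hb, hab⟩⟩
    have hsum : ∑ b ∈ s', (a b : MvPowerSeries (Fin n) Ω) * y b = 0 := by
      rw [← ha, Finset.sum_filter_of_ne]
      · exact Finset.sum_congr rfl fun b _ => rfl
      · intro b _ h h0
        apply h
        rw [h0]
        exact zero_mul _
    have hane : ∀ b ∈ s', (a b : MvPowerSeries (Fin n) Ω) ≠ 0 := fun b hb h =>
      (Finset.mem_filter.1 hb).2 (Subtype.ext h)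
    obtain ⟨b₁, hb₁, b₂, hb₂, hbb, hval⟩ := two_eq hs'
      (fun b hb => mul_ne_zero (hane b hb) (hy0 _)) hsum
    rw [xp_mul (hane _ hb₁) (hy0 _), xp_mul (hane _ hb₂) (hy0 _)] at hval
    apply hbb
    apply hinj
    intro i hi
    have h2 : xp (a b₁ : MvPowerSeries (Fin n) Ω) i + xp (y b₁) i =
        xp (a b₂ : MvPowerSeries (Fin n) Ω) i + xp (y b₂) i := DFunLike.congr_fun hval i
    rwa [xp_con (a b₁).2 (hane _ hb₁) hi, xp_con (a b₂).2 (hane _ hb₂) hi, zero_add,
      zero_add] at h2
  have hspan : ∀ z ∈ Submodule.span Ω (Set.range fun i => tay E (u i)),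
      z ∈ Submodule.span (con (Ω := Ω) I) (Set.range fun s => tay E (f s : Ω)) := by
    intro z hz
    induction hz using Submodule.span_induction with
    | mem x hx =>
      obtain ⟨i, rfl⟩ := hx
      have hmem : u i ∈ Submodule.span B (Set.range u) := Submodule.subset_span ⟨i, rfl⟩
      have h2 := f.sum_repr ⟨u i, hmem⟩
      have h3 := (congrArg (Submodule.subtype _) h2).symm
      rw [map_sum] at h3
      change u i = _ at h3
      show tay E (u i) ∈ _
      rw [h3, tay_sum]
      refine Submodule.sum_mem _ fun s _ => ?_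
      have h4 : (Submodule.subtype (Submodule.span B (Set.range u)))
          ((f.repr ⟨u i, hmem⟩) s • f s) =
          algebraMap B Ω (f.repr ⟨u i, hmem⟩ s) * (f s : Ω) := by
        rw [← Algebra.smul_def]
        rfl
      rw [h4, tay_mul]
      exact Submodule.smul_mem _ (⟨_, fun e he => by
        obtain ⟨i, hi, he⟩ := he
        exact tay_kill E hcomm (hB (f.repr ⟨u _, hmem⟩ s) i hi) he⟩ :
        con (Ω := Ω) I) (Submodule.subset_span ⟨s, rfl⟩)
    | zero => exact Submodule.zero_mem _
    | add x y _ _ hx hy => exact Submodule.add_mem _ hx hy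
    | smul c x _ hx =>
      have h4 : c • x = (⟨_, const_mem I c⟩ : con (Ω := Ω) I) • x := by
        show c • x = MvPowerSeries.C c * x
        ext e
        rw [map_smul, MvPowerSeries.coeff_C_mul, smul_eq_mul]
      rw [h4]
      exact Submodule.smul_mem _ _ hx
  have h5 := linearIndependent_le_span_aux' y hlin
    (Set.range fun s => tay E (f s : Ω)) (by
      rintro _ ⟨b, rfl⟩
      exact hspan _ (hyV _))
  refine h5.trans ?_
  have h6 := Fintype.card_range_le (fun s => tay E (f s : Ω))
  rw [Fintype.card_fin] at h6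
  exact h6

/-- products of elements of the spans of Taylor series -/
theorem mul_span {ι ι' : Type*} {u : ι → Ω} {u' : ι' → Ω} {y y' : MvPowerSeries (Fin n) Ω}
    (hy : y ∈ Submodule.span Ω (Set.range fun i => tay E (u i)))
    (hy' : y' ∈ Submodule.span Ω (Set.range fun i => tay E (u' i))) :
    y * y' ∈ Submodule.span Ω (Set.range fun p : ι × ι' => tay E (u p.1 * u' p.2)) := by
  induction hy using Submodule.span_induction with
  | mem x hx =>
    obtain ⟨i, rfl⟩ := hx
    induction hy' using Submodule.span_induction with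
    | mem x' hx' =>
      obtain ⟨i', rfl⟩ := hx'
      refine Submodule.subset_span ⟨(i, i'), ?_⟩
      show tay E (u i * u' i') = tay E (u i) * tay E (u' i')
      rw [tay_mul]
    | zero =>
      rw [mul_zero]
      exact Submodule.zero_mem _
    | add a b _ _ ha hb =>
      rw [mul_add]
      exact Submodule.add_mem _ ha hb
    | smul c a _ ha =>
      rw [mul_smul_comm]
      exact Submodule.smul_mem _ _ ha
  | zero =>
    rw [zero_mul]
    exact Submodule.zero_mem _
  | add a b _ _ ha hb =>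
    rw [add_mul]
    exact Submodule.add_mem _ ha hb
  | smul c a _ ha =>
    rw [smul_mul_assoc]
    exact Submodule.smul_mem _ _ ha

/-- **Submodularity of ranks.** -/
theorem count2 (hcomm : ∀ l m a, E l (E m a) = E m (E l a)) {B₀ B₁ B₂ B₁₂ : Type*} [Field B₀]
    [Field B₁] [Field B₂] [Field B₁₂] [Algebra B₀ Ω] [Algebra B₁ Ω] [Algebra B₂ Ω]
    [Algebra B₁₂ Ω] {I₁ I₂ X : Finset (Fin n)} (hI : ∀ i, i ∉ I₁ → i ∈ I₂) (hX₁ : X ⊆ I₁)
    (hX₂ : X ⊆ I₂) (hX : ∀ i ∈ X, ∀ j, j ∉ X → j < i)
    (h₀ : ∀ a, (∀ l, E l a = 0) → ∃ c : B₀, algebraMap B₀ Ω c = a)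
    (h₁ : ∀ b : B₁, ∀ i ∈ I₁, E i (algebraMap B₁ Ω b) = 0)
    (h₂ : ∀ b : B₂, ∀ i ∈ I₂, E i (algebraMap B₂ Ω b) = 0)
    (h₁₂ : ∀ a, (∀ l ∈ X, E l a = 0) → ∃ c : B₁₂, algebraMap B₁₂ Ω c = a)
    {N P : ℕ} {w : Fin N → Ω} (hw : LinearIndependent B₀ w) {s : Fin P → Ω}
    (hs : LinearIndependent B₁₂ s) :
    N * P ≤ Module.finrank B₁ (Submodule.span B₁ (Set.range w)) *
      Module.finrank B₂ (Submodule.span B₂
        (Set.range fun p : Fin N × Fin P => w p.1 * s p.2)) := by
  classical
  -- values of the first space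
  have hli : LinearIndependent Ω fun i => tay E (w i) := by
    rw [Fintype.linearIndependent_iff]
    intro c hc
    refine tay_indep E hcomm Finset.univ (fun a ha => h₀ a fun l => ha l (Finset.mem_univ l)) hw
      fun e _ => ?_
    have h1 := congrArg (MvPowerSeries.coeff e) hc
    rw [map_sum, map_zero] at h1
    rw [← h1]
    exact Finset.sum_congr rfl fun i _ => by rw [map_smul, smul_eq_mul]
  let V : Submodule Ω (MvPowerSeries (Fin n) Ω) :=
    Submodule.span Ω (Set.range fun i => tay E (w i))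
  have hfdV : FiniteDimensional Ω V := FiniteDimensional.span_of_finite Ω (Set.finite_range _)
  have hrank : Module.finrank Ω V = N := by
    show Module.finrank Ω (Submodule.span Ω (Set.range fun i => tay E (w i))) = _
    rw [finrank_span_eq_card hli, Fintype.card_fin]
  obtain ⟨y, hyV, hy0, hyinj⟩ := Pool.Agent.H891.RG.exists_distinct_of lv V
    (fun a _ a' _ ha' h => leaf ha' h) N hrank.ge
  -- values of the second space
  have hres : ∀ c : Fin P → Ω, res X (∑ i, c i • tay E (s i)) = 0 → ∀ i, c i = 0 := by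
    intro c hc
    refine tay_indep E hcomm X h₁₂ hs fun e he => ?_
    have h1 := congrArg (MvPowerSeries.coeff e) hc
    rw [coeff_res he, map_sum, map_zero] at h1
    rw [← h1]
    exact Finset.sum_congr rfl fun i _ => by rw [map_smul, smul_eq_mul]
  have hli' : LinearIndependent Ω fun i => tay E (s i) := by
    rw [Fintype.linearIndependent_iff]
    intro c hc
    exact hres c (by rw [hc, map_zero])
  let V' : Submodule Ω (MvPowerSeries (Fin n) Ω) :=
    Submodule.span Ω (Set.range fun i => tay E (s i))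
  have hfdV' : FiniteDimensional Ω V' := FiniteDimensional.span_of_finite Ω (Set.finite_range _)
  have hrank' : Module.finrank Ω V' = P := by
    show Module.finrank Ω (Submodule.span Ω (Set.range fun i => tay E (s i))) = _
    rw [finrank_span_eq_card hli', Fintype.card_fin]
  have hresV : ∀ z ∈ V', z ≠ 0 → res X z ≠ 0 := by
    intro z hz hz0 h
    obtain ⟨c, rfl⟩ := (Submodule.mem_span_range_iff_exists_fun Ω).1 hz
    apply hz0
    exact Finset.sum_eq_zero fun i _ => by rw [hres c h i, zero_smul]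
  obtain ⟨z, hzV, hz0, hzinj⟩ := Pool.Agent.H891.RG.exists_distinct_of (fun a => lv (res X a)) V'
    (fun a _ a' ha' ha0 h => by
      obtain ⟨c, hc⟩ := leaf (hresV a' ha' ha0) h
      exact ⟨c, by rwa [map_sub, map_smul]⟩) P hrank'.ge
  have hzr : ∀ j, res X (z j) ≠ 0 := fun j => hresV _ (hzV j) (hz0 j)
  have hzx : ∀ j, xp (z j) = xp (res X (z j)) := by
    intro j
    apply xp_of
    rw [lexOrder_res hX (hzr j), xp_spec (hzr j)]
  have hzX : ∀ j i, i ∉ X → xp (z j) i = 0 := by
    intro j i hi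
    rw [hzx, xp_res (hzr j) hi]
  have hzi : ∀ j j', xp (z j) = xp (z j') → j = j' := by
    intro j j' h
    apply hzinj
    show lv (res X (z j)) = lv (res X (z j'))
    unfold lv
    rw [xp_spec (hzr j), xp_spec (hzr j'), ← hzx, ← hzx, h]
  have hyi : ∀ l l', xp (y l) = xp (y l') → l = l' := by
    intro l l' h
    apply hyinj
    show lv (y l) = lv (y l')
    unfold lv
    rw [xp_spec (hy0 l), xp_spec (hy0 l'), h]
  -- projections
  let pr : Finset (Fin n) → (Fin n →₀ ℕ) → Fin n → ℕ := fun I e i => if i ∈ I then e i else 0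
  let T : Finset (Fin n) := Finset.univ \ I₁
  have hT : ∀ i ∈ T, i ∈ I₂ := fun i hi => hI i (Finset.mem_sdiff.1 hi).2
  let A₁ : Finset (Fin n → ℕ) := Finset.univ.image fun l => pr I₁ (xp (y l))
  let A₂ : Finset (Fin n → ℕ) := Finset.univ.image fun l => pr T (xp (y l))
  have hN : N ≤ A₁.card * A₂.card := by
    rw [← Finset.card_product]
    have h1 : (Finset.univ.image fun l => (pr I₁ (xp (y l)), pr T (xp (y l)))).card = N := by
      rw [Finset.card_image_of_injective, Finset.card_univ, Fintype.card_fin]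
      intro l l' h
      apply hyi
      ext i
      have h2 : pr I₁ (xp (y l)) = pr I₁ (xp (y l')) := (Prod.ext_iff.1 h).1
      have h3 : pr T (xp (y l)) = pr T (xp (y l')) := (Prod.ext_iff.1 h).2
      by_cases hi : i ∈ I₁
      · have h4 := congrFun h2 i
        simp only [pr, if_pos hi] at h4
        exact h4
      · have h4 := congrFun h3 i
        have h5 : i ∈ T := Finset.mem_sdiff.2 ⟨Finset.mem_univ _, hi⟩
        simp only [pr, if_pos h5] at h4
        exact h4
    rw [← h1]
    refine Finset.card_le_card fun p hp => ?_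
    obtain ⟨l, -, rfl⟩ := Finset.mem_image.1 hp
    exact Finset.mem_product.2 ⟨Finset.mem_image_of_mem _ (Finset.mem_univ l),
      Finset.mem_image_of_mem _ (Finset.mem_univ l)⟩
  have hrep₁ : ∀ b : A₁, ∃ l, pr I₁ (xp (y l)) = b := by
    intro b
    obtain ⟨l, -, h⟩ := Finset.mem_image.1 b.2
    exact ⟨l, h⟩
  choose ρ₁ hρ₁ using hrep₁
  have hrep₂ : ∀ b : A₂, ∃ l, pr T (xp (y l)) = b := by
    intro b
    obtain ⟨l, -, h⟩ := Finset.mem_image.1 b.2
    exact ⟨l, h⟩
  choose ρ₂ hρ₂ using hrep₂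
  have hA₁ := proj_bound (E := E) hcomm h₁ w (fun b : A₁ => y (ρ₁ b)) (fun b => hyV _)
    (fun b => hy0 _) (fun b b' h => by
      apply Subtype.ext
      rw [← hρ₁ b, ← hρ₁ b']
      funext i
      simp only [pr]
      by_cases hi : i ∈ I₁
      · rw [if_pos hi, if_pos hi]
        exact h i hi
      · rw [if_neg hi, if_neg hi])
  have hA₂ := proj_bound (E := E) hcomm h₂ (fun p : Fin N × Fin P => w p.1 * s p.2)
    (fun b : A₂ × Fin P => y (ρ₂ b.1) * z b.2) (fun b => mul_span (hyV _) (hzV _))
    (fun b => mul_ne_zero (hy0 _) (hz0 _)) (fun b b' h => by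
      have h1 : ∀ i ∈ I₂, xp (y (ρ₂ b.1)) i + xp (z b.2) i =
          xp (y (ρ₂ b'.1)) i + xp (z b'.2) i := by
        intro i hi
        have h2 := h i hi
        rw [xp_mul (hy0 _) (hz0 _), xp_mul (hy0 _) (hz0 _)] at h2
        exact h2
      have h3 : b.1 = b'.1 := by
        apply Subtype.ext
        rw [← hρ₂ b.1, ← hρ₂ b'.1]
        funext i
        simp only [pr]
        by_cases hi : i ∈ T
        · rw [if_pos hi, if_pos hi]
          have h4 := h1 i (hT i hi)
          have h5 : i ∉ X := fun h6 => (Finset.mem_sdiff.1 hi).2 (hX₁ h6)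
          rwa [hzX _ i h5, hzX _ i h5, add_zero, add_zero] at h4
        · rw [if_neg hi, if_neg hi]
      refine Prod.ext h3 (hzi _ _ ?_)
      ext i
      by_cases hi : i ∈ X
      · have h4 := h1 i (hX₂ hi)
        rw [h3] at h4
        exact Nat.add_left_cancel h4
      · rw [hzX _ i hi, hzX _ i hi])
  rw [Fintype.card_coe] at hA₁
  rw [Fintype.card_prod, Fintype.card_coe, Fintype.card_fin] at hA₂
  calc N * P ≤ (A₁.card * A₂.card) * P := Nat.mul_le_mul_right _ hN
    _ = A₁.card * (A₂.card * P) := by ring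
    _ ≤ _ := Nat.mul_le_mul hA₁ hA₂

end

end Pool.Agent.H891.SM
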