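import Pool.Agent.H891.TY.Defs

/-! Restrictions of sections to the general members of covering families: definitions. -/

set_option autoImplicit false
set_option linter.overlappingInstances false
set_option linter.unusedSectionVars false

open FF Pool.Agent.W619.PQ Pool.Agent.W619.TW Pool.Agent.Y174 Pool.Agent.H891.TY

namespace Pool.Agent.H891.SM

section

variable {k : Type} {K : Type} [Field k] [Field K] [Algebra k K]

/-- The rank of the restriction of the sections of `m (K_V + Δ) + A` to the general member is at
least `N`: there are `N` sections, on the variety `V` of dimension `n`, with restrictions to the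
general member which are linearly independent (over the field `B` of the constants of the general
member). The sections are given by their values on the frames of rational vector fields on `V`; `A`
is the divisor generated by the finite set `S` of functions. -/
def RestrIndep (B : IntermediateField k (AlgebraicClosure K)) (n : ℕ) (δ : Place k K → ℝ)
    (S : Finset K) (m N : ℕ) : Prop :=
  ∃ ω : Fin N → (Fin n → Derivation k K K) → K, (∀ l, PairSec k K n δ S m 1 (ω l)) ∧
    LinearIndependent B fun l => fun E : Fin n → Derivation k K K => memHom B (ω l E)

/-- The restricted numerical dimension `ν (V|F, K_V + Δ)` of the general member `F` is at most `h`: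
for every divisor `A` the rank of the restriction of the sections of `m (K_V + Δ) + A` to `F` is at
most `C m ^ h`, for all `m ≥ 1`. -/
def RestrNumLe (B : IntermediateField k (AlgebraicClosure K)) (n : ℕ) (δ : Place k K → ℝ)
    (h : ℕ) : Prop :=
  ∀ S : Finset K, ∃ C : ℕ, ∀ m N : ℕ, 1 ≤ m → RestrIndep B n δ S m N → N ≤ C * m ^ h

/-- The restricted numerical dimension `ν (V|F, K_V + Δ)` of the general member `F` is at least `c`:
for some divisor `A` and some `M ≥ 1` the rank of the restriction of the sections of
`i M (K_V + Δ) + A` to `F` is at least `i ^ c`, for all `i ≥ 1`. -/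
def RestrNumGe (B : IntermediateField k (AlgebraicClosure K)) (n : ℕ) (δ : Place k K → ℝ)
    (c : ℕ) : Prop :=
  ∃ (S : Finset K) (M : ℕ), 1 ≤ M ∧ ∀ i : ℕ, 1 ≤ i → RestrIndep B n δ S (i * M) (i ^ c)

/-- The image of the general member `F` under some pluricanonical map of the pair `(V, Δ)` has at
least the dimension `c`: for some `m ≥ 1` there are `c + 1` sections of `m (K_V + Δ)` such that the
restrictions of their ratios to `F` are algebraically independent. -/
def ImageDimGe (B : IntermediateField k (AlgebraicClosure K)) (n : ℕ) (δ : Place k K → ℝ)
    (c : ℕ) : Prop :=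
  ∃ m : ℕ, 1 ≤ m ∧ ∃ ω : Fin (c + 1) → (Fin n → Derivation k K K) → K,
    (∀ l, PairSec k K n δ {1} m 0 (ω l)) ∧
    ∃ E, (∀ l, ω l E ≠ 0) ∧
      AlgebraicIndependent B (fun l : Fin c => memHom B (ω l.succ E / ω 0 E))

end

end Pool.Agent.H891.SM
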