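import Pool.Agent.H891.SM.Coord
import Pool.Agent.H891.SM.Defs
import Pool.Agent.H891.TY.Main

/-! Submodularity of the ranks of the restrictions of sections. -/

set_option autoImplicit false
set_option linter.overlappingInstances false
set_option linter.unusedSectionVars false

open FF IntermediateField Algebra Pool.Agent.W619.PQ Pool.Agent.W619.PL Pool.Agent.W619.TW
  Pool.Agent.W603.LV Pool.Agent.W619.Y Pool.Agent.Y174 Pool.Agent.Y173.QA Pool.Agent.H891.KS
  Pool.Agent.H891.TY

namespace Pool.Agent.H891.SM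

section

variable {k : Type} {K : Type} [Field k] [Field K] [Algebra k K]

/-- products of sections -/
theorem sec_mul₂ {n : ℕ} {δ : Place k K → ℝ} {S S' : Finset K} [DecidableEq K] {m m' : ℕ}
    {ω ω' : (Fin n → Derivation k K K) → K} (hω : PairSec k K n δ S m 1 ω)
    (hω' : PairSec k K n δ S' m' 1 ω') :
    PairSec k K n δ (Finset.image₂ (· * ·) S S') (m + m') 1 fun X => ω X * ω' X := by
  refine ⟨fun A X => ?_, fun v hv X hX => ?_⟩
  · have h1 := hω.1 A X
    have h2 := hω'.1 A X
    show ω (fun i => ∑ j, A i j • X j) * ω' (fun i => ∑ j, A i j • X j) = _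
    rw [h1, h2, pow_add]
    ring
  · show ω X * ω' X = 0 ∨ ∃ s ∈ Finset.image₂ (· * ·) S S', s ≠ 0 ∧
      ((1 : ℕ) : ℝ) * v.ord s - ((m + m' : ℕ) : ℝ) * δ v ≤ v.ord (ω X * ω' X)
    by_cases h1 : ω X = 0
    · exact Or.inl (by rw [h1, zero_mul])
    by_cases h2 : ω' X = 0
    · exact Or.inl (by rw [h2, mul_zero])
    right
    obtain ⟨s, hs, hs0, h3⟩ := (hω.2 v hv X hX).resolve_left h1
    obtain ⟨s', hs', hs0', h4⟩ := (hω'.2 v hv X hX).resolve_left h2
    refine ⟨s * s', Finset.mem_image₂_of_mem hs hs', mul_ne_zero hs0 hs0', ?_⟩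
    rw [v.ord_mul h1 h2, v.ord_mul hs0 hs0']
    push_cast at h3 h4 ⊢
    linarith

/-- the inclusion of the function field of the member in the algebraic closure -/
noncomputable def valHom (B : IntermediateField k (AlgebraicClosure K)) :
    MemField B →+* AlgebraicClosure K := (Mem B).val.toRingHom

theorem valHom_memHom (B : IntermediateField k (AlgebraicClosure K)) (z : K) :
    valHom B (memHom B z) = algebraMap K (AlgebraicClosure K) z := rfl

theorem valHom_smul (B : IntermediateField k (AlgebraicClosure K)) (b : B) (z : MemField B) :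
    valHom B (b • z) = b • valHom B z := rfl

theorem valHom_injective (B : IntermediateField k (AlgebraicClosure K)) :
    Function.Injective (valHom B) := (valHom B).injective

/-- independent restrictions have independent coefficients -/
theorem coef_indep {n : ℕ} {y : Fin n → K} (hy : IsTranscendenceBasis k y) [CharZero k]
    {E : Fin n → Derivation k K K} (hE : ∀ i j, E i (y j) = if i = j then 1 else 0)
    {B : IntermediateField k (AlgebraicClosure K)} {N m : ℕ}
    {ω : Fin N → (Fin n → Derivation k K K) → K} (hω : ∀ l, IsPluriForm k K n m (ω l))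
    (h : LinearIndependent B fun l => fun X : Fin n → Derivation k K K => memHom B (ω l X)) :
    LinearIndependent B fun l => algebraMap K (AlgebraicClosure K) (ω l E) := by
  rw [Fintype.linearIndependent_iff] at h ⊢
  intro a ha
  apply h a
  funext X
  choose M hM using fun i => (⟨_, der_expand hy hE (X i)⟩ : ∃ c : Fin n → K, X i = ∑ j, c j • E j)
  have h2 : ∀ l, ω l X = (Matrix.of M).det ^ m * ω l E := by
    intro l
    have h3 := hω l (Matrix.of M) E
    simp only [Matrix.of_apply] at h3
    have h4 : X = fun i => ∑ j, M i j • E j := funext hM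
    conv_lhs => rw [h4]
    exact h3
  apply valHom_injective B
  rw [Finset.sum_apply, map_sum]
  have h6 : ∀ l, valHom B ((a l • fun X : Fin n → Derivation k K K => memHom B (ω l X)) X) =
      algebraMap K (AlgebraicClosure K) ((Matrix.of M).det ^ m) *
        (a l • algebraMap K (AlgebraicClosure K) (ω l E)) := by
    intro l
    rw [Pi.smul_apply, valHom_smul, valHom_memHom, h2, map_mul, mul_smul_comm]
  rw [Finset.sum_congr rfl fun l _ => h6 l, ← Finset.mul_sum, ha, mul_zero]
  exact (map_zero (valHom B)).symm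

/-- independent coefficients give independent restrictions -/
theorem restr_indep {n : ℕ} {E : Fin n → Derivation k K K}
    {B : IntermediateField k (AlgebraicClosure K)} {N : ℕ}
    {ω : Fin N → (Fin n → Derivation k K K) → K}
    (h : LinearIndependent B fun l => algebraMap K (AlgebraicClosure K) (ω l E)) :
    LinearIndependent B fun l => fun X : Fin n → Derivation k K K => memHom B (ω l X) := by
  rw [Fintype.linearIndependent_iff] at h ⊢
  intro a ha
  apply h a
  have h1 := congrFun ha E
  rw [Finset.sum_apply] at h1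
  have h2 := congrArg (valHom B) h1
  rw [map_sum] at h2
  exact h2.trans (map_zero (valHom B))

open scoped Classical in
/-- the rank of the restriction, from the coefficients -/
theorem restr_of_rank {n : ℕ} {E : Fin n → Derivation k K K} {δ : Place k K → ℝ} {S : Finset K}
    (B : IntermediateField k (AlgebraicClosure K)) {m : ℕ} {ι : Type} [Finite ι]
    {ω : ι → (Fin n → Derivation k K K) → K} (hω : ∀ l, PairSec k K n δ S m 1 (ω l)) :
    RestrIndep B n δ S m (Module.finrank B (Submodule.span B
      (Set.range fun l => algebraMap K (AlgebraicClosure K) (ω l E)))) := by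
  have hfd : FiniteDimensional B (Submodule.span B
      (Set.range fun l => algebraMap K (AlgebraicClosure K) (ω l E))) :=
    FiniteDimensional.span_of_finite B (Set.finite_range _)
  obtain ⟨f, hf, -, hf2⟩ := Submodule.exists_fun_fin_finrank_span_eq B
    (Set.range fun l => algebraMap K (AlgebraicClosure K) (ω l E))
  choose g hg using hf
  refine ⟨fun i => ω (g i), fun i => hω _, restr_indep (E := E) ?_⟩
  have h1 : (fun l => algebraMap K (AlgebraicClosure K) (ω (g l) E)) = f := funext hg
  rw [h1]
  exact hf2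

/-- a derivation which vanishes on `B` is `B`-linear -/
noncomputable def upg (B : IntermediateField k (AlgebraicClosure K))
    (D : Derivation k (AlgebraicClosure K) (AlgebraicClosure K)) (hD : ∀ b ∈ B, D b = 0) :
    Derivation B (AlgebraicClosure K) (AlgebraicClosure K) :=
  Derivation.mk'
    { toFun := D
      map_add' := fun x y => map_add D x y
      map_smul' := fun b x => by
        show D ((b : AlgebraicClosure K) * x) = (b : AlgebraicClosure K) * D x
        rw [D.leibniz, hD _ b.2, smul_zero, add_zero]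
        rfl }
    fun x y => D.leibniz x y

theorem upg_apply (B : IntermediateField k (AlgebraicClosure K))
    (D : Derivation k (AlgebraicClosure K) (AlgebraicClosure K)) (hD : ∀ b ∈ B, D b = 0)
    (z : AlgebraicClosure K) : upg B D hD z = D z := rfl

variable [CharZero k]

/-- **Submodularity of the ranks of the restrictions.** -/
theorem submod_rank {n : ℕ} (hn : Algebra.trdeg k K = n)
    {B₀ B₁ B₂ B₁₂ : IntermediateField k (AlgebraicClosure K)} (h0 : IsAlgClosed B₀)
    (h12 : IsAlgClosed B₁₂) (h01 : B₀ ≤ B₁) (h02 : B₀ ≤ B₂) (h1 : B₁ ≤ B₁₂) (h2 : B₂ ≤ B₁₂)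
    (hT : Tan B₀ ≤ Tan B₁ ⊔ Tan B₂) {δ : Place k K → ℝ} {S S' : Finset K} [DecidableEq K]
    {m m' N P : ℕ} (hN : RestrIndep B₀ n δ S m N) (hP : RestrIndep B₁₂ n δ S' m' P) :
    ∃ M₁ M₂ : ℕ, RestrIndep B₁ n δ S m M₁ ∧
      RestrIndep B₂ n δ (Finset.image₂ (· * ·) S S') (m + m') M₂ ∧ N * P ≤ M₁ * M₂ := by
  classical
  obtain ⟨y, hy⟩ := Pool.Agent.W636.PG.exists_basis k K n hn
  obtain ⟨E, hE⟩ := Pool.Agent.W636.PG.exists_duals k K n _ hy
  obtain ⟨ω, hω, hli⟩ := hN
  obtain ⟨η, hη, hli'⟩ := hP
  have hw := coef_indep hy hE (fun l => (hω l).1) hli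
  have hs := coef_indep hy hE (fun l => (hη l).1) hli'
  let _ : Algebra B₀ B₁ := (IntermediateField.inclusion h01).toRingHom.toAlgebra
  let _ : Algebra B₀ B₂ := (IntermediateField.inclusion h02).toRingHom.toAlgebra
  have _ : IsScalarTower B₀ B₁ (AlgebraicClosure K) := IsScalarTower.of_algebraMap_eq fun _ => rfl
  have _ : IsScalarTower B₀ B₂ (AlgebraicClosure K) := IsScalarTower.of_algebraMap_eq fun _ => rfl
  have hΩ : Algebra.trdeg k (AlgebraicClosure K) = n := by
    have h3 := trdeg_add_eq k K (A := AlgebraicClosure K)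
    rw [hn, trdeg_eq_zero (R := K) (A := AlgebraicClosure K), add_zero] at h3
    exact h3.symm
  obtain ⟨-, n₀, -, hn₀, -⟩ := trdeg_nat (A := k) (B := B₀) (C := AlgebraicClosure K) hΩ
  have hB0 : CharZero B₀ := charZero_of_injective_algebraMap (algebraMap k B₀).injective
  have key := rank2 (k := B₀) (Ω := AlgebraicClosure K) hn₀ (B₁ := B₁) (B₂ := B₂) (B₁₂ := B₁₂)
    (fun c => ⟨⟨c, h1 (h01 c.2)⟩, rfl⟩) (fun c => ⟨⟨c, h1 c.2⟩, rfl⟩)
    (fun c => ⟨⟨c, h2 c.2⟩, rfl⟩) (fun D => by
      have h3 : D.restrictScalars k ∈ Tan B₀ := by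
        intro b hb
        exact D.map_algebraMap (⟨b, hb⟩ : B₀)
      obtain ⟨D₁, hD₁, D₂, hD₂, h4⟩ := Submodule.mem_sup.1 (hT h3)
      refine ⟨upg B₀ D₁ fun b hb => hD₁ b (h01 hb), upg B₀ D₂ fun b hb => hD₂ b (h02 hb), ?_,
        fun b => hD₁ b b.2, fun b => hD₂ b b.2⟩
      apply Derivation.ext
      intro z
      rw [Derivation.add_apply, upg_apply, upg_apply, ← Derivation.add_apply, h4]
      rfl) hw hs
  refine ⟨_, _, restr_of_rank B₁ hω, ?_, key⟩
  have h3 := restr_of_rank (E := E) B₂ (ω := fun p : Fin N × Fin P => fun X =>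
    ω p.1 X * η p.2 X) fun p => sec_mul₂ (hω p.1) (hη p.2)
  have h4 : (fun p : Fin N × Fin P => algebraMap K (AlgebraicClosure K)
      ((fun X => ω p.1 X * η p.2 X) E)) = fun p : Fin N × Fin P =>
      algebraMap K (AlgebraicClosure K) (ω p.1 E) *
        algebraMap K (AlgebraicClosure K) (η p.2 E) := funext fun p => map_mul _ _ _
  rw [h4] at h3
  exact h3

end

end Pool.Agent.H891.SM
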