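import Pool.Agent.H891.TY.Taylor

/-! Taylor series at the generic point as multivariate power series. -/

set_option autoImplicit false
set_option linter.unusedSectionVars false

open MvPolynomial Pool.Agent.H891.TY

namespace Pool.Agent.H891.SM

section

variable {k Ω : Type*} [Field k] [Field Ω] [CharZero Ω] [Algebra k Ω] {n : ℕ}
  (E : Fin n → Derivation k Ω Ω)

/-- The Taylor series at the generic point. -/
noncomputable def tay (a : Ω) : MvPowerSeries (Fin n) Ω :=
  fun e => MvPolynomial.coeff e (th E (Finsupp.degree e) a)

theorem coeff_tay (e : Fin n →₀ ℕ) (a : Ω) :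
    MvPowerSeries.coeff e (tay E a) = MvPolynomial.coeff e (th E (Finsupp.degree e) a) := rfl

theorem tay_add (a b : Ω) : tay E (a + b) = tay E a + tay E b := by
  ext e
  rw [map_add, coeff_tay, coeff_tay, coeff_tay, th_add, coeff_add]

theorem tay_zero : tay E (0 : Ω) = 0 := by
  ext e
  rw [map_zero, coeff_tay, th_zero', coeff_zero]

theorem tay_sum {ι : Type*} (s : Finset ι) (a : ι → Ω) :
    tay E (∑ i ∈ s, a i) = ∑ i ∈ s, tay E (a i) := by
  classical
  induction s using Finset.induction_on with
  | empty => rw [Finset.sum_empty, Finset.sum_empty, tay_zero]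
  | insert i s hi ih => rw [Finset.sum_insert hi, Finset.sum_insert hi, tay_add, ih]

theorem tay_mul (a b : Ω) : tay E (a * b) = tay E a * tay E b := by
  classical
  ext e
  rw [MvPowerSeries.coeff_mul, coeff_tay, ← th_mul, coeff_sum]
  simp only [MvPolynomial.coeff_mul]
  rw [Finset.sum_comm]
  refine Finset.sum_congr rfl fun p hp => ?_
  have hp' : p.1 + p.2 = e := Finset.HasAntidiagonal.mem_antidiagonal.1 hp
  rw [Finset.sum_eq_single (Finsupp.degree p.1, Finsupp.degree p.2)]
  · rfl
  · intro q hq hne
    have hq' : q.1 + q.2 = Finsupp.degree e := Finset.HasAntidiagonal.mem_antidiagonal.1 hq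
    have h1 : Finsupp.degree p.1 + Finsupp.degree p.2 = Finsupp.degree e := by
      rw [← hp', map_add]
    by_cases h2 : Finsupp.degree p.1 = q.1
    · exfalso
      apply hne
      refine Prod.ext h2.symm ?_
      show q.2 = Finsupp.degree p.2
      omega
    · rw [(th_hom E q.1 a).coeff_eq_zero h2, zero_mul]
  · intro h
    exfalso
    apply h
    rw [Finset.HasAntidiagonal.mem_antidiagonal, ← hp', map_add]

theorem tay_der (hcomm : ∀ l m a, E l (E m a) = E m (E l a)) (l : Fin n) (e : Fin n →₀ ℕ) (a : Ω) :
    MvPowerSeries.coeff (e + Finsupp.single l 1) (tay E a) * (e l + 1) =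
      MvPowerSeries.coeff e (tay E (E l a)) := by
  have h1 : Finsupp.degree (e + Finsupp.single l 1) = Finsupp.degree e + 1 := by
    rw [map_add, Finsupp.degree_single]
  rw [coeff_tay, coeff_tay, h1, ← th_pderiv E hcomm, coeff_pderiv]

/-- The variable `l` does not occur in the Taylor series of `a` if `E l a = 0`. -/
theorem tay_kill (hcomm : ∀ l m a, E l (E m a) = E m (E l a)) {l : Fin n} {a : Ω}
    (ha : E l a = 0) {e : Fin n →₀ ℕ} (he : e l ≠ 0) : MvPowerSeries.coeff e (tay E a) = 0 := by
  classical
  obtain ⟨e', he'⟩ : ∃ e', e = e' + Finsupp.single l 1 := by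
    refine ⟨e - Finsupp.single l 1, ?_⟩
    ext j
    rw [Finsupp.add_apply, Finsupp.tsub_apply]
    by_cases hj : l = j
    · subst hj
      rw [Finsupp.single_eq_same]
      omega
    · rw [Finsupp.single_eq_of_ne (Ne.symm hj)]
      omega
  have h1 := tay_der E hcomm l e' a
  rw [ha, tay_zero, map_zero, ← he'] at h1
  have h2 : ((e' l : Ω) + 1) ≠ 0 := Nat.cast_add_one_ne_zero _
  exact (mul_eq_zero.1 h1).resolve_right h2

/-- The Taylor series of elements which are independent over the constants of the fields `E l`,
`l ∈ X`, restricted to the variables in `X`, are independent. -/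
theorem tay_indep (hcomm : ∀ l m a, E l (E m a) = E m (E l a)) (X : Finset (Fin n)) {B : Type*}
    [Field B] [Algebra B Ω]
    (hconst : ∀ a, (∀ l ∈ X, E l a = 0) → ∃ c : B, algebraMap B Ω c = a) {ι : Type*} [Fintype ι]
    {w : ι → Ω} (hw : LinearIndependent B w) {c : ι → Ω}
    (hc : ∀ e : Fin n →₀ ℕ, (∀ i, i ∉ X → e i = 0) →
      ∑ i, c i * MvPowerSeries.coeff e (tay E (w i)) = 0) : ∀ i, c i = 0 := by
  classical
  -- all derivatives
  let d : List {l // l ∈ X} → Ω → Ω := fun L a => L.foldr (fun l b => E l b) a
  have h1 : ∀ (L : List {l // l ∈ X}) (e : Fin n →₀ ℕ), (∀ i, i ∉ X → e i = 0) →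
      ∑ i, c i * MvPowerSeries.coeff e (tay E (d L (w i))) = 0 := by
    intro L
    induction L with
    | nil => exact hc
    | cons l L ih =>
      intro e he
      have h2 := ih (e + Finsupp.single l.1 1) (fun i hi => by
        rw [Finsupp.add_apply, he i hi, zero_add, Finsupp.single_eq_of_ne]
        rintro rfl
        exact hi l.2)
      have h3 := congrArg (fun z => z * ((e l.1 : Ω) + 1)) h2
      rw [zero_mul, Finset.sum_mul] at h3
      rw [← h3]
      refine Finset.sum_congr rfl fun i _ => ?_
      show c i * MvPowerSeries.coeff e (tay E (E l.1 (d L (w i)))) = _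
      rw [← tay_der E hcomm]
      ring
  have hrel : ∀ L : List {l // l ∈ X}, ∑ i, c i * d L (w i) = 0 := by
    intro L
    have h2 := h1 L 0 (fun _ _ => rfl)
    have h3 : ∀ a, MvPowerSeries.coeff (0 : Fin n →₀ ℕ) (tay E a) = a := by
      intro a
      rw [coeff_tay, map_zero, th_zero, MvPolynomial.coeff_zero_C]
    simpa only [h3] using h2
  clear hc h1
  by_contra hcon
  -- minimal relation
  have key : ∀ m : ℕ, ∀ c : ι → Ω, (∀ L : List {l // l ∈ X}, ∑ i, c i * d L (w i) = 0) →
      (Finset.univ.filter fun i => c i ≠ 0).card ≤ m → ∀ i, c i = 0 := by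
    intro m
    induction m with
    | zero =>
      intro c _ hm i
      by_contra h
      have h1 : i ∈ (Finset.univ.filter fun i => c i ≠ 0) :=
        Finset.mem_filter.2 ⟨Finset.mem_univ _, h⟩
      rw [Finset.card_eq_zero.1 (Nat.le_zero.1 hm)] at h1
      exact absurd h1 (Finset.notMem_empty _)
    | succ m ih =>
      intro c hc hm
      by_contra hne
      push Not at hne
      obtain ⟨i₀, hi₀⟩ := hne
      -- normalize
      let c' : ι → Ω := fun i => c i / c i₀
      have hc' : ∀ L : List {l // l ∈ X}, ∑ i, c' i * d L (w i) = 0 := by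
        intro L
        have h2 : ∑ i, c' i * d L (w i) = (c i₀)⁻¹ * ∑ i, c i * d L (w i) := by
          rw [Finset.mul_sum]
          refine Finset.sum_congr rfl fun i _ => ?_
          show c i / c i₀ * _ = _
          ring
        rw [h2, hc L, mul_zero]
      have hder : ∀ l : {l // l ∈ X}, ∀ i, E l.1 (c' i) = 0 := by
        intro l
        refine ih (fun i => E l.1 (c' i)) (fun L => ?_) ?_
        · have h2 := congrArg (E l.1) (hc' L)
          rw [map_sum, map_zero] at h2
          have h3 := hc' (l :: L)
          rw [← h2, ← sub_eq_zero, ← Finset.sum_sub_distrib, ← neg_eq_zero, ←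
            Finset.sum_neg_distrib]
          rw [← h3]
          refine Finset.sum_congr rfl fun i _ => ?_
          rw [Derivation.leibniz]
          show _ = c' i * E l.1 (d L (w i))
          rw [smul_eq_mul, smul_eq_mul]
          ring
        · have h2 : (Finset.univ.filter fun i => E l.1 (c' i) ≠ 0) ⊆
              (Finset.univ.filter fun i => c i ≠ 0).erase i₀ := by
            intro i hi
            have hi' := (Finset.mem_filter.1 hi).2
            rw [Finset.mem_erase]
            refine ⟨?_, Finset.mem_filter.2 ⟨Finset.mem_univ _, ?_⟩⟩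
            · rintro rfl
              apply hi'
              show E l.1 (c i / c i) = 0
              rw [div_self hi₀, Derivation.map_one_eq_zero]
            · intro h0
              apply hi'
              show E l.1 (c i / c i₀) = 0
              rw [h0, zero_div, map_zero]
          have h3 := Finset.card_le_card h2
          have h4 : ((Finset.univ.filter fun i => c i ≠ 0).erase i₀).card + 1 =
              (Finset.univ.filter fun i => c i ≠ 0).card :=
            Finset.card_erase_add_one (Finset.mem_filter.2 ⟨Finset.mem_univ _, hi₀⟩)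
          omega
      choose e he using fun i => hconst (c' i) fun l hl => hder ⟨l, hl⟩ i
      have h5 : ∑ i, e i • w i = 0 := by
        have h6 := hc' []
        rw [← h6]
        refine Finset.sum_congr rfl fun i _ => ?_
        rw [Algebra.smul_def, he]
        rfl
      have h6 := Fintype.linearIndependent_iff.1 hw e h5 i₀
      have h7 := he i₀
      rw [h6, map_zero] at h7
      have h8 : c' i₀ = 1 := div_self hi₀
      rw [h8] at h7
      exact zero_ne_one h7
  exact hcon (key _ c hrel le_rfl)

end

end Pool.Agent.H891.SM
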